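import Pool.Agent.N287.WF.Stm

/-!
# Project WF (helper287), part M3: local structure of the orbits of the action of the plane
-/

set_option autoImplicit false

open scoped Topology ContDiff Manifold
open Set Filter Bundle Pool.Agent.Helper186 Pool.Agent.H826R2 Pool.Agent.N287.WF

noncomputable section

namespace Pool.Agent.N488.WF

universe u v w

lemma ift {X E : Type*} [NormedAddCommGroup X] [NormedSpace ℝ X] [CompleteSpace X]
    [NormedAddCommGroup E] [NormedSpace ℝ E]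
    (g : X → E) (x₀ : X) (A : X ≃L[ℝ] E) (N : Set X) (hN : IsOpen N) (hx : x₀ ∈ N)
    (hg : ContDiffOn ℝ ∞ g N) (hA : HasFDerivAt g (A : X →L[ℝ] E) x₀) :
    ∃ T : OpenPartialHomeomorph X E, (T : X → E) = g ∧ x₀ ∈ T.source ∧ T.source ⊆ N ∧
      ContDiffOn ℝ ∞ T.symm T.target := by
  have hga : ∀ x ∈ N, ContDiffAt ℝ ∞ g x := fun x hx => hg.contDiffAt (hN.mem_nhds hx)
  have hne : (∞ : ℕ∞ω) ≠ 0 := by simp
  -- the derivative is invertible nearby
  have hcf : ContinuousOn (fderiv ℝ g) N := by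
    intro x hx
    have h1 : ContDiffAt ℝ 0 (fderiv ℝ g) x := (hga x hx).fderiv_right (by simp)
    exact h1.continuousAt.continuousWithinAt
  have hopen : IsOpen (N ∩ {x | ∃ B : X ≃L[ℝ] E, (B : X →L[ℝ] E) = fderiv ℝ g x}) := by
    have h2 : IsOpen (Set.range ((↑) : (X ≃L[ℝ] E) → (X →L[ℝ] E))) := ContinuousLinearEquiv.isOpen
    exact hcf.isOpen_inter_preimage hN h2
  set T₀ := ContDiffAt.toOpenPartialHomeomorph g (hga x₀ hx) hA hne with hT₀
  have hT₀g : (T₀ : X → E) = g := ContDiffAt.toOpenPartialHomeomorph_coe (hga x₀ hx) hA hne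
  have hx₀ : x₀ ∈ T₀.source := ContDiffAt.mem_toOpenPartialHomeomorph_source (hga x₀ hx) hA hne
  refine ⟨T₀.restrOpen _ hopen, by simpa using hT₀g, ?_, ?_, ?_⟩
  · simp only [OpenPartialHomeomorph.restrOpen_source]
    exact ⟨hx₀, hx, A, hA.fderiv.symm⟩
  · simp only [OpenPartialHomeomorph.restrOpen_source]
    exact fun x hx => hx.2.1
  · intro y hy
    apply ContDiffAt.contDiffWithinAt
    have hy2 : (T₀.restrOpen _ hopen).symm y ∈ (T₀.restrOpen _ hopen).source :=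
      (T₀.restrOpen _ hopen).map_target hy
    simp only [OpenPartialHomeomorph.restrOpen_source] at hy2
    obtain ⟨h3, h4, B, hB⟩ := hy2
    have h5 : HasFDerivAt g (fderiv ℝ g ((T₀.restrOpen _ hopen).symm y))
        ((T₀.restrOpen _ hopen).symm y) :=
      ((hga _ h4).differentiableAt (by simp)).hasFDerivAt
    rw [← hB] at h5
    apply OpenPartialHomeomorph.contDiffAt_symm (T₀.restrOpen _ hopen) (f₀' := B) hy
    · simpa [hT₀g] using h5
    · simpa [hT₀g] using hga _ h4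

lemma locinj {H W : Type*} [NormedAddCommGroup H] [NormedSpace ℝ H] [FiniteDimensional ℝ H]
    [NormedAddCommGroup W] [NormedSpace ℝ W] [FiniteDimensional ℝ W]
    (k : H → W) (B : H →L[ℝ] W) (h₀ : H) (hk : HasStrictFDerivAt k B h₀)
    (hB : ∀ h, B h = 0 → h = 0) :
    ∃ O : Set H, IsOpen O ∧ h₀ ∈ O ∧ InjOn k O := by
  obtain ⟨P, hP⟩ := LinearMap.exists_leftInverse_of_injective (B : H →ₗ[ℝ] W)
    (LinearMap.ker_eq_bot'.2 fun h hh => hB h hh)
  set P' : W →L[ℝ] H := LinearMap.toContinuousLinearMap P with hP'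
  have h1 : HasStrictFDerivAt (fun h => P' (k h)) (P'.comp B) h₀ :=
    P'.hasStrictFDerivAt.comp h₀ hk
  have h2 : P'.comp B = ((ContinuousLinearEquiv.refl ℝ H : H ≃L[ℝ] H) : H →L[ℝ] H) := by
    ext h
    have := congrArg (fun L : H →ₗ[ℝ] H => L h) hP
    simpa [hP'] using this
  rw [h2] at h1
  set T := HasStrictFDerivAt.toOpenPartialHomeomorph (fun h => P' (k h)) h1 with hT
  refine ⟨T.source, T.open_source, HasStrictFDerivAt.mem_toOpenPartialHomeomorph_source h1, ?_⟩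
  intro a ha b hb hab
  apply T.injOn ha hb
  have hTc : (T : H → H) = fun h => P' (k h) := HasStrictFDerivAt.toOpenPartialHomeomorph_coe h1
  rw [hTc]
  simp only [hab]

section

variable {E : Type u} [NormedAddCommGroup E] [NormedSpace ℝ E]
  {M : Type v} [TopologicalSpace M] [ChartedSpace E M]

/-- the derivative of a curve in the preferred chart at its initial point -/
lemma curve_deriv {R : (x : M) → TangentSpace 𝓘(ℝ, E) x} {γ : ℝ → M} {x₀ : M}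
    (h0 : γ 0 = x₀) (h : IsMIntegralCurve (I := 𝓘(ℝ, E)) γ R) :
    HasDerivAt (fun t => chartAt E x₀ (γ t)) (R x₀ : E) 0 := by
  subst h0
  have h1 := (h 0).2
  simp only [writtenInExtChartAt, Function.comp_def, chartAt_self_eq, mfld_simps] at h1
  have h2 : HasFDerivAt (fun t => chartAt E (γ 0) (γ t))
      (ContinuousLinearMap.smulRight (1 : ℝ →L[ℝ] ℝ) (R (γ 0) : E)) 0 :=
    hasFDerivWithinAt_univ.1 h1
  have h3 : HasDerivAt (fun t => chartAt E (γ 0) (γ t))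
      ((ContinuousLinearMap.smulRight (1 : ℝ →L[ℝ] ℝ) (R (γ 0) : E)) 1) 0 := h2.hasDerivAt
  rwa [ContinuousLinearMap.smulRight_apply, one_apply_eq_self, one_smul] at h3

/-- the derivative of a map with values in a vector space, in the preferred chart -/
lemma f_deriv [IsManifold 𝓘(ℝ, E) ∞ M] {W : Type w} [NormedAddCommGroup W] [NormedSpace ℝ W]
    {f : M → W} (hf : ContMDiff 𝓘(ℝ, E) 𝓘(ℝ, W) ∞ f) (x₀ : M) :
    HasFDerivAt (fun y => f ((chartAt E x₀).symm y))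
      (mfderiv 𝓘(ℝ, E) 𝓘(ℝ, W) f x₀ : E →L[ℝ] W) (chartAt E x₀ x₀) := by
  have h1 := ((hf x₀).mdifferentiableAt (by simp)).hasMFDerivAt.2
  simp only [writtenInExtChartAt, Function.comp_def, chartAt_self_eq, mfld_simps] at h1
  exact hasFDerivWithinAt_univ.1 h1

lemma f_smooth [IsManifold 𝓘(ℝ, E) ∞ M] {W : Type w} [NormedAddCommGroup W] [NormedSpace ℝ W]
    {f : M → W} (hf : ContMDiff 𝓘(ℝ, E) 𝓘(ℝ, W) ∞ f) (x₀ : M) :
    ContDiffAt ℝ ∞ (fun y => f ((chartAt E x₀).symm y)) (chartAt E x₀ x₀) := by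
  rw [← contMDiffAt_iff_contDiffAt]
  have h1 : ContMDiffAt 𝓘(ℝ, E) 𝓘(ℝ, E) ∞ (chartAt E x₀).symm (chartAt E x₀ x₀) :=
    (contMDiffOn_chart_symm (I := 𝓘(ℝ, E)) (x := x₀)).contMDiffAt
      ((chartAt E x₀).open_target.mem_nhds (mem_chart_target E x₀))
  exact (hf _).comp (chartAt E x₀ x₀) h1

/-- the action in a chart -/
def gm (A : (ℝ × ℝ) × M → M) (x₀ : M) (H : Submodule ℝ E) (p : (ℝ × ℝ) × H) : E :=
  chartAt E x₀ (A (p.1, (chartAt E x₀).symm (chartAt E x₀ x₀ + p.2)))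

/-- the domain of `gm` -/
def gdom (A : (ℝ × ℝ) × M → M) (x₀ : M) (H : Submodule ℝ E) : Set ((ℝ × ℝ) × H) :=
  {p | chartAt E x₀ x₀ + (p.2 : E) ∈ (chartAt E x₀).target} ∩
    (fun p : (ℝ × ℝ) × H => A (p.1, (chartAt E x₀).symm (chartAt E x₀ x₀ + p.2))) ⁻¹'
      (chartAt E x₀).source

lemma inner_smooth [IsManifold 𝓘(ℝ, E) ∞ M] (x₀ : M) (H : Submodule ℝ E) :
    ContMDiffOn 𝓘(ℝ, (ℝ × ℝ) × H) (𝓘(ℝ, ℝ × ℝ).prod 𝓘(ℝ, E)) ∞
      (fun p : (ℝ × ℝ) × H => (p.1, (chartAt E x₀).symm (chartAt E x₀ x₀ + p.2)))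
      {p | chartAt E x₀ x₀ + (p.2 : E) ∈ (chartAt E x₀).target} := by
  apply ContMDiffOn.prodMk
  · exact contDiff_fst.contMDiff.contMDiffOn
  · have h1 : ContMDiffOn 𝓘(ℝ, (ℝ × ℝ) × H) 𝓘(ℝ, E) ∞
        (fun p : (ℝ × ℝ) × H => chartAt E x₀ x₀ + (p.2 : E))
        {p | chartAt E x₀ x₀ + (p.2 : E) ∈ (chartAt E x₀).target} := by
      apply ContMDiff.contMDiffOn
      apply ContDiff.contMDiff
      exact contDiff_const.add (H.subtypeL.contDiff.comp contDiff_snd)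
    exact (contMDiffOn_chart_symm (I := 𝓘(ℝ, E)) (x := x₀)).comp h1 (fun p hp => hp)

lemma FA_smooth [IsManifold 𝓘(ℝ, E) ∞ M] {A : (ℝ × ℝ) × M → M}
    (hA : ContMDiff (𝓘(ℝ, ℝ × ℝ).prod 𝓘(ℝ, E)) 𝓘(ℝ, E) ∞ A) (x₀ : M) (H : Submodule ℝ E) :
    ContMDiffOn 𝓘(ℝ, (ℝ × ℝ) × H) 𝓘(ℝ, E) ∞
      (fun p : (ℝ × ℝ) × H => A (p.1, (chartAt E x₀).symm (chartAt E x₀ x₀ + p.2)))
      {p | chartAt E x₀ x₀ + (p.2 : E) ∈ (chartAt E x₀).target} :=
  hA.comp_contMDiffOn (inner_smooth x₀ H)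

lemma gdom_open [IsManifold 𝓘(ℝ, E) ∞ M] {A : (ℝ × ℝ) × M → M}
    (hA : ContMDiff (𝓘(ℝ, ℝ × ℝ).prod 𝓘(ℝ, E)) 𝓘(ℝ, E) ∞ A) (x₀ : M) (H : Submodule ℝ E) :
    IsOpen (gdom A x₀ H) := by
  apply (FA_smooth hA x₀ H).continuousOn.isOpen_inter_preimage _ (chartAt E x₀).open_source
  have h1 : Continuous (fun p : (ℝ × ℝ) × H => chartAt E x₀ x₀ + (p.2 : E)) := by fun_prop
  exact (chartAt E x₀).open_target.preimage h1

lemma gm_smooth [IsManifold 𝓘(ℝ, E) ∞ M] {A : (ℝ × ℝ) × M → M}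
    (hA : ContMDiff (𝓘(ℝ, ℝ × ℝ).prod 𝓘(ℝ, E)) 𝓘(ℝ, E) ∞ A) (x₀ : M) (H : Submodule ℝ E) :
    ContDiffOn ℝ ∞ (gm A x₀ H) (gdom A x₀ H) := by
  rw [← contMDiffOn_iff_contDiffOn]
  have h1 : ContMDiffOn 𝓘(ℝ, (ℝ × ℝ) × H) 𝓘(ℝ, E) ∞
      (fun p : (ℝ × ℝ) × H => A (p.1, (chartAt E x₀).symm (chartAt E x₀ x₀ + p.2)))
      (gdom A x₀ H) := (FA_smooth hA x₀ H).mono inter_subset_left
  exact (contMDiffOn_chart (I := 𝓘(ℝ, E)) (x := x₀)).comp h1 (fun p hp => hp.2)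

lemma gm_deriv [FiniteDimensional ℝ E] [IsManifold 𝓘(ℝ, E) ∞ M]
    {R Y : (x : M) → TangentSpace 𝓘(ℝ, E) x} {φ ψ : M → ℝ → M} (hfl : Fl2 R Y φ ψ)
    (hA : ContMDiff (𝓘(ℝ, ℝ × ℝ).prod 𝓘(ℝ, E)) 𝓘(ℝ, E) ∞
      (fun p : (ℝ × ℝ) × M => act φ ψ p.1 p.2))
    (h0 : ∀ x, act φ ψ 0 x = x) (x₀ : M) (H : Submodule ℝ E) (r y : E) (hr : r = R x₀)
    (hy : y = Y x₀) :
    ∃ L : (ℝ × ℝ) × H →L[ℝ] E,
      HasFDerivAt (gm (fun p : (ℝ × ℝ) × M => act φ ψ p.1 p.2) x₀ H) L 0 ∧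
      ∀ (p : ℝ × ℝ) (h : H), L (p, h) = p.1 • r + p.2 • y + (h : E) := by
  set A : (ℝ × ℝ) × M → M := fun p => act φ ψ p.1 p.2 with hAdef
  have hmem : (0 : (ℝ × ℝ) × H) ∈ gdom A x₀ H := by
    refine ⟨?_, ?_⟩
    · simp [mem_chart_target E x₀]
    · simp [hAdef, h0, mem_chart_source E x₀]
  have hd : DifferentiableAt ℝ (gm A x₀ H) 0 :=
    ((gm_smooth hA x₀ H).contDiffAt ((gdom_open hA x₀ H).mem_nhds hmem)).differentiableAt
      (by simp)
  refine ⟨fderiv ℝ (gm A x₀ H) 0, hd.hasFDerivAt, ?_⟩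
  set L := fderiv ℝ (gm A x₀ H) 0 with hL
  have hL' : HasFDerivAt (gm A x₀ H) L 0 := hd.hasFDerivAt
  have hL2 : HasFDerivAt (gm A x₀ H) L (((0, 0), 0) : (ℝ × ℝ) × H) := hL'
  have hL3 : HasFDerivAt (gm A x₀ H) L (ContinuousLinearMap.inr ℝ (ℝ × ℝ) H 0) := by
    rw [map_zero]; exact hL'
  have hH : ∀ h : H, L (0, h) = h := by
    have h1 : HasFDerivAt (fun h : H => gm A x₀ H (0, h))
        (L.comp (ContinuousLinearMap.inr ℝ (ℝ × ℝ) H)) 0 :=
      hL3.comp (0 : H) (ContinuousLinearMap.inr ℝ (ℝ × ℝ) H).hasFDerivAt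
    have h2 : HasFDerivAt (fun h : H => chartAt E x₀ x₀ + (h : E)) H.subtypeL 0 :=
      (H.subtypeL.hasFDerivAt).const_add _
    have h3 : (fun h : H => gm A x₀ H (0, h)) =ᶠ[𝓝 0] fun h : H => chartAt E x₀ x₀ + (h : E) := by
      have h4 : {h : H | chartAt E x₀ x₀ + (h : E) ∈ (chartAt E x₀).target} ∈ 𝓝 (0 : H) := by
        apply IsOpen.mem_nhds
        · have h5 : Continuous (fun h : H => chartAt E x₀ x₀ + (h : E)) := by fun_prop
          exact (chartAt E x₀).open_target.preimage h5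
        · simp [mem_chart_target E x₀]
      filter_upwards [h4] with h hh
      show chartAt E x₀ (act φ ψ 0 ((chartAt E x₀).symm (chartAt E x₀ x₀ + (h : E)))) = _
      rw [h0]
      exact (chartAt E x₀).right_inv hh
    have h6 := (h2.congr_of_eventuallyEq h3).unique h1
    intro h
    have h7 := congrArg (fun T : H →L[ℝ] E => T h) h6
    simpa using h7.symm
  have hR : L ((1, 0), 0) = r := by
    rw [hr]
    have h1 : HasDerivAt (fun t : ℝ => (((t, 0), 0) : (ℝ × ℝ) × H)) ((1, 0), 0) 0 :=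
      ((hasDerivAt_id (0 : ℝ)).prodMk (hasDerivAt_const (0 : ℝ) (0 : ℝ))).prodMk
        (hasDerivAt_const (0 : ℝ) (0 : H))
    have h2 : HasDerivAt (fun t : ℝ => gm A x₀ H ((t, 0), 0)) (L ((1, 0), 0)) 0 :=
      HasFDerivAt.comp_hasDerivAt (l := gm A x₀ H) (l' := L) (0 : ℝ) hL2 h1
    have h3 : (fun t : ℝ => gm A x₀ H ((t, 0), 0)) = fun t => chartAt E x₀ (φ x₀ t) := by
      ext t
      simp [gm, hAdef, act, hfl.ψ0]
    rw [h3] at h2
    exact h2.unique (curve_deriv (hfl.φ0 x₀) (hfl.φint x₀))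
  have hY : L ((0, 1), 0) = y := by
    rw [hy]
    have h1 : HasDerivAt (fun t : ℝ => (((0, t), 0) : (ℝ × ℝ) × H)) ((0, 1), 0) 0 :=
      ((hasDerivAt_const (0 : ℝ) (0 : ℝ)).prodMk (hasDerivAt_id (0 : ℝ))).prodMk
        (hasDerivAt_const (0 : ℝ) (0 : H))
    have h2 : HasDerivAt (fun t : ℝ => gm A x₀ H ((0, t), 0)) (L ((0, 1), 0)) 0 :=
      HasFDerivAt.comp_hasDerivAt (l := gm A x₀ H) (l' := L) (0 : ℝ) hL2 h1
    have h3 : (fun t : ℝ => gm A x₀ H ((0, t), 0)) = fun t => chartAt E x₀ (ψ x₀ t) := by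
      ext t
      simp [gm, hAdef, act, hfl.φ0]
    rw [h3] at h2
    exact h2.unique (curve_deriv (hfl.ψ0 x₀) (hfl.ψint x₀))
  intro p h
  have h1 : ((p, h) : (ℝ × ℝ) × H) =
      p.1 • (((1, 0), 0) : (ℝ × ℝ) × H) + p.2 • (((0, 1), 0) : (ℝ × ℝ) × H) + (0, h) := by
    ext <;> simp
  rw [h1, map_add, map_add, map_smul, map_smul, hH, hR, hY]

end

/-- M3: local structure -/
theorem loc : LocStm.{u, v, w} := by
  intro E _ _ _ M _ _ _ _ W _ _ _ β R f Y a hN φ ψ hfl hA h0 hadd hf x₀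
  set A : (ℝ × ℝ) × M → M := fun p => act φ ψ p.1 p.2 with hAdef
  set c := chartAt E x₀ with hc
  let D : E →L[ℝ] W := DW f x₀
  let r : E := R x₀
  let y : E := Y x₀
  have hker : ∀ u : E, D u = 0 ↔ ∃ p q : ℝ, u = p • r + q • y := hN.ker x₀
  have hind : ∀ p q : ℝ, p • r + q • y = 0 → p = 0 ∧ q = 0 := by
    intro p q hpq
    have h1 : β x₀ (p • R x₀ + q • Y x₀) = β x₀ 0 := congrArg (β x₀) hpq
    rw [map_add, map_smul, map_smul, hN.cd.reeb.unit, hN.kerβ, map_zero] at h1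
    have hp : p = 0 := by simpa using h1
    refine ⟨hp, ?_⟩
    rw [hp, zero_smul, zero_add] at hpq
    rcases smul_eq_zero.1 hpq with h2 | h2
    · exact h2
    · exact absurd h2 (hN.ne x₀)
  obtain ⟨H, hH⟩ := Submodule.exists_isCompl (LinearMap.ker (D : E →ₗ[ℝ] W))
  obtain ⟨L, hL, hLf⟩ := gm_deriv hfl hA h0 x₀ H r y rfl rfl
  have hmemH : ∀ h : H, D h = 0 → h = 0 := by
    intro h hh
    have h1 : (h : E) ∈ LinearMap.ker (D : E →ₗ[ℝ] W) ⊓ H := ⟨hh, h.2⟩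
    rw [hH.inf_eq_bot] at h1
    exact Subtype.ext ((Submodule.mem_bot ℝ).1 h1)
  have hinjL : L.ker = ⊥ := by
    rw [LinearMap.ker_eq_bot']
    rintro ⟨p, h⟩ hp
    have h1 : p.1 • r + p.2 • y + (h : E) = 0 := by rw [← hLf]; exact hp
    have h2 : D (p.1 • r + p.2 • y) = 0 := (hker _).2 ⟨_, _, rfl⟩
    have h3 : D h = 0 := by
      have h4 : (h : E) = -(p.1 • r + p.2 • y) := by
        rw [eq_neg_iff_add_eq_zero, add_comm]; exact h1
      rw [h4, map_neg, h2, neg_zero]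
    have h5 := hmemH h h3
    rw [h5] at h1
    obtain ⟨h6, h7⟩ := hind p.1 p.2 (by simpa using h1)
    rw [h5]
    ext
    · exact h6
    · exact h7
    · rfl
  have hsurL : L.range = ⊤ := by
    rw [LinearMap.range_eq_top]
    intro e
    have h1 : e ∈ LinearMap.ker (D : E →ₗ[ℝ] W) ⊔ H := by rw [hH.sup_eq_top]; trivial
    obtain ⟨e₁, he₁, e₂, he₂, rfl⟩ := Submodule.mem_sup.1 h1
    obtain ⟨p, q, hpq⟩ := (hker e₁).1 he₁
    exact ⟨((p, q), ⟨e₂, he₂⟩), by rw [hpq]; exact hLf (p, q) ⟨e₂, he₂⟩⟩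
  set L' := ContinuousLinearEquiv.ofBijective L hinjL hsurL with hL'
  have hLL : (L' : (ℝ × ℝ) × H →L[ℝ] E) = L := ContinuousLinearEquiv.coe_ofBijective L hinjL hsurL
  rw [← hLL] at hL
  -- the restriction of `f` to the transversal
  set k : H → W := fun h => f (c.symm (c x₀ + h)) with hk
  have hkd : HasStrictFDerivAt k (D.comp H.subtypeL) 0 := by
    have h1 : HasStrictFDerivAt (fun y => f (c.symm y)) D (c x₀) :=
      (f_smooth hN.smoothf x₀).hasStrictFDerivAt' (f_deriv hN.smoothf x₀) (by simp)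
    have h2 : HasStrictFDerivAt (fun h : H => c x₀ + (h : E)) H.subtypeL 0 :=
      H.subtypeL.hasStrictFDerivAt.const_add _
    have h3 : HasStrictFDerivAt (fun y => f (c.symm y)) D (c x₀ + ((0 : H) : E)) := by
      simpa using h1
    exact HasStrictFDerivAt.comp (g := fun y => f (c.symm y))
      (f := fun h : H => c x₀ + (h : E)) (0 : H) h3 h2
  obtain ⟨O, hO, h0O, hinj⟩ := locinj k (D.comp H.subtypeL) 0 hkd (fun h hh => hmemH h hh)
  have hmem : (0 : (ℝ × ℝ) × H) ∈ gdom A x₀ H := by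
    refine ⟨?_, ?_⟩
    · simp [mem_chart_target E x₀]
    · simp [hAdef, h0, mem_chart_source E x₀]
  obtain ⟨T, hTg, h0T, hTN, hTs⟩ := ift (gm A x₀ H) 0 L' (gdom A x₀ H ∩ Prod.snd ⁻¹' O)
    ((gdom_open hA x₀ H).inter (hO.preimage continuous_snd)) ⟨hmem, h0O⟩
    ((gm_smooth hA x₀ H).mono inter_subset_left) hL
  have key1 : ∀ p ∈ T.source, act φ ψ p.1 (c.symm (c x₀ + p.2)) ∈ c.source ∩ c ⁻¹' T.target ∧
      T.symm (c (act φ ψ p.1 (c.symm (c x₀ + p.2)))) = p := by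
    intro p hp
    have h1 : c (act φ ψ p.1 (c.symm (c x₀ + p.2))) = T p := by rw [hTg]; rfl
    refine ⟨⟨(hTN hp).1.2, ?_⟩, ?_⟩
    · show c _ ∈ T.target
      rw [h1]; exact T.map_source hp
    · rw [h1]; exact T.left_inv hp
  have key2 : ∀ x ∈ c.source ∩ c ⁻¹' T.target,
      act φ ψ (T.symm (c x)).1 (c.symm (c x₀ + (T.symm (c x)).2)) = x := by
    intro x hx
    have hp : T.symm (c x) ∈ T.source := T.map_target hx.2
    have h1 : c (act φ ψ (T.symm (c x)).1 (c.symm (c x₀ + (T.symm (c x)).2))) =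
        T (T.symm (c x)) := by rw [hTg]; rfl
    rw [T.right_inv hx.2] at h1
    exact c.injOn (hTN hp).1.2 hx.1 h1
  have hx₀ : x₀ ∈ c.source ∩ c ⁻¹' T.target := by
    have h1 := (key1 0 h0T).1
    have h2 : act φ ψ (0 : (ℝ × ℝ) × H).1 (c.symm (c x₀ + (0 : (ℝ × ℝ) × H).2)) = x₀ := by
      simp [h0, hc]
    rwa [h2] at h1
  have hτ₀ : T.symm (c x₀) = 0 := by
    have h1 := (key1 0 h0T).2
    have h2 : act φ ψ (0 : (ℝ × ℝ) × H).1 (c.symm (c x₀ + (0 : (ℝ × ℝ) × H).2)) = x₀ := by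
      simp [h0, hc]
    rwa [h2] at h1
  have hU : IsOpen (c.source ∩ c ⁻¹' T.target) := c.isOpen_inter_preimage T.open_target
  refine ⟨c.source ∩ c ⁻¹' T.target, hU, hx₀, fun x => (T.symm (c x)).1, ?_, ?_, ?_, ?_⟩
  · have h1 : ContMDiffOn 𝓘(ℝ, E) 𝓘(ℝ, (ℝ × ℝ) × H) ∞ T.symm T.target :=
      hTs.contMDiffOn
    have h2 : ContMDiffOn 𝓘(ℝ, E) 𝓘(ℝ, E) ∞ c (c.source ∩ c ⁻¹' T.target) :=
      (contMDiffOn_chart (I := 𝓘(ℝ, E)) (x := x₀)).mono inter_subset_left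
    have h3 : ContMDiff 𝓘(ℝ, (ℝ × ℝ) × H) 𝓘(ℝ, ℝ × ℝ) ∞ (Prod.fst : (ℝ × ℝ) × H → ℝ × ℝ) :=
      contDiff_fst.contMDiff
    exact h3.comp_contMDiffOn (h1.comp h2 fun x hx => hx.2)
  · show (T.symm (c x₀)).1 = 0
    rw [hτ₀]; rfl
  · intro x hx x' hx' hxx
    have hp : T.symm (c x) ∈ T.source := T.map_target hx.2
    have hp' : T.symm (c x') ∈ T.source := T.map_target hx'.2
    have e1 := key2 x hx
    have e2 := key2 x' hx'
    have h1 : k (T.symm (c x)).2 = k (T.symm (c x')).2 := by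
      have h2 : f x = k (T.symm (c x)).2 := by
        conv_lhs => rw [← e1]
        rw [hf]
      have h3 : f x' = k (T.symm (c x')).2 := by
        conv_lhs => rw [← e2]
        rw [hf]
      rw [← h2, ← h3, hxx]
    have h2 : (T.symm (c x)).2 = (T.symm (c x')).2 := hinj (hTN hp).2 (hTN hp').2 h1
    have h9 : act φ ψ ((T.symm (c x)).1 - (T.symm (c x')).1)
        (act φ ψ (T.symm (c x')).1 (c.symm (c x₀ + (T.symm (c x')).2))) = x := by
      rw [← hadd, sub_add_cancel, ← h2]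
      exact e1
    rwa [e2] at h9
  · -- the translation property
    have hcT : ContinuousAt (fun x => T.symm (c x)) x₀ :=
      ContinuousAt.comp (f := c) (g := T.symm) (T.continuousAt_symm hx₀.2)
        (c.continuousAt hx₀.1)
    have h1 : ContinuousAt (fun z : M × (ℝ × ℝ) =>
        (((T.symm (c z.1)).1 + z.2, (T.symm (c z.1)).2) : (ℝ × ℝ) × H)) (x₀, 0) := by
      have h2 : ContinuousAt (fun z : M × (ℝ × ℝ) => T.symm (c z.1)) (x₀, 0) :=
        ContinuousAt.comp (f := fun z : M × (ℝ × ℝ) => z.1) (g := fun x => T.symm (c x)) hcT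
          continuousAt_fst
      exact ((continuousAt_fst.comp h2).add continuousAt_snd).prodMk (continuousAt_snd.comp h2)
    have h3 : ∀ᶠ z : M × (ℝ × ℝ) in 𝓝 (x₀, 0),
        (((T.symm (c z.1)).1 + z.2, (T.symm (c z.1)).2) : (ℝ × ℝ) × H) ∈ T.source := by
      apply h1.eventually_mem
      have h4 : (((T.symm (c x₀)).1 + (0 : ℝ × ℝ), (T.symm (c x₀)).2) : (ℝ × ℝ) × H) = 0 := by
        rw [hτ₀]; simp
      show T.source ∈ 𝓝 (((T.symm (c x₀)).1 + (0 : ℝ × ℝ), (T.symm (c x₀)).2) : (ℝ × ℝ) × H)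
      rw [h4]
      exact T.open_source.mem_nhds h0T
    rw [nhds_prod_eq] at h3
    obtain ⟨V, hV, S, hS, hVS⟩ := Filter.eventually_prod_iff.1 h3
    obtain ⟨ε, hε, hεS⟩ := Metric.eventually_nhds_iff.1 hS
    refine ⟨ε, hε, ?_⟩
    filter_upwards [hV, hU.mem_nhds hx₀] with x hxV hxU s hs
    have h5 := hVS hxV (hεS (by simpa using hs : dist s 0 < ε))
    obtain ⟨h6, h7⟩ := key1 _ h5
    have h8 : act φ ψ ((T.symm (c x)).1 + s) (c.symm (c x₀ + (T.symm (c x)).2)) =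
        act φ ψ s x := by
      rw [add_comm, hadd, key2 x hxU]
    simp only at h6 h7
    rw [h8] at h6 h7
    refine ⟨h6, ?_⟩
    show (T.symm (c (act φ ψ s x))).1 = (T.symm (c x)).1 + s
    rw [h7]

end Pool.Agent.N488.WF
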